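import Pool.Agent.H695R3.PP.Stmts

set_option autoImplicit false

open scoped BigOperators ENNReal
open MeasureTheory

namespace Pool.Agent.H980R3.PP

open Pool.Agent.H695R3.PP

/-- injective reindexing of a product of probability measures (as in `Pool.Agent.H4R2.LO.Em`) -/
theorem pi_map_inj {α β : Type*} [Fintype α] [Fintype β] (μ : Measure ℝ) [IsProbabilityMeasure μ]
    (e : α → β) (he : Function.Injective e) :
    (Measure.pi fun _ : β => μ).map (fun (V : β → ℝ) (a : α) => V (e a)) =
      Measure.pi fun _ : α => μ := by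
  classical
  symm
  apply Measure.pi_eq
  intro s hs
  rw [Measure.map_apply (measurable_pi_iff.2 fun a => measurable_pi_apply (e a))
    (MeasurableSet.univ_pi hs)]
  have h1 : (fun (V : β → ℝ) (a : α) => V (e a)) ⁻¹' (Set.pi Set.univ s) =
      Set.pi Set.univ (fun b => ⋂ (a : α) (_ : e a = b), s a) := by
    ext V
    rw [Set.mem_preimage, Set.mem_univ_pi, Set.mem_univ_pi]
    constructor
    · intro h b
      rw [Set.mem_iInter₂]
      rintro a rfl
      exact h a
    · intro h a
      exact Set.mem_iInter₂.1 (h (e a)) a rfl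
  rw [h1, Measure.pi_pi]
  have h2 : ∏ b ∈ Finset.univ.image e, μ (⋂ (a : α) (_ : e a = b), s a) =
      ∏ b : β, μ (⋂ (a : α) (_ : e a = b), s a) := by
    refine Finset.prod_subset (Finset.subset_univ _) fun b _ hb => ?_
    have h3 : (⋂ (a : α) (_ : e a = b), s a) = Set.univ :=
      Set.eq_univ_of_forall fun t => Set.mem_iInter₂.2 fun a ha =>
        absurd (Finset.mem_image.2 ⟨a, Finset.mem_univ a, ha⟩) hb
    rw [h3, measure_univ]
  rw [← h2, Finset.prod_image (fun a _ a' _ h => he h)]
  refine Finset.prod_congr rfl fun a _ => ?_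
  congr 1
  ext t
  rw [Set.mem_iInter₂]
  constructor
  · intro h
    exact h a rfl
  · intro h a' ha'
    rw [he ha']
    exact h

theorem taskTransfer : TaskTransfer := by
  classical
  intro Q _ q L W ε B hq hB hloc
  let S : Finset ℤ := Finset.Icc (-(L : ℤ)) L
  let ext : (S → ℝ) → (ℤ → ℝ) := fun y n => W n + ε * (if h : n ∈ S then y ⟨n, h⟩ else 0)
  have hext : Measurable ext := by
    refine measurable_pi_iff.2 fun n => ?_
    by_cases h : n ∈ S
    · simp only [ext, h, dif_pos]
      have h3 : Measurable fun y : S → ℝ => y ⟨n, h⟩ := measurable_pi_apply _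
      exact (h3.const_mul ε).const_add (W n)
    · simp only [ext, h, dif_neg, not_false_iff]
      exact measurable_const
  have hB' : MeasurableSet (ext ⁻¹' B) := hext hB
  have hinj : Function.Injective (fun n : S => q n) := by
    intro n m h
    apply Subtype.ext
    exact hq (Finset.mem_Icc.1 n.2) (Finset.mem_Icc.1 m.2) h
  have h1 := pi_map_inj U (fun n : S => q n) hinj
  have h2 := Measure.infinitePi_map_restrict (fun _ : ℤ => U) (I := S)
  have e1 : {η : Q → ℝ | (fun n => W n + ε * η (q n)) ∈ B} =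
      (fun (V : Q → ℝ) (a : S) => V (q a)) ⁻¹' (ext ⁻¹' B) := by
    ext1 η
    show ((fun n => W n + ε * η (q n)) ∈ B) ↔ ext (fun a : S => η (q a)) ∈ B
    apply hloc
    intro n hn1 hn2
    have hn : n ∈ S := Finset.mem_Icc.2 ⟨hn1, hn2⟩
    simp only [ext, hn, dif_pos]
  have e2 : {x : ℤ → ℝ | (fun n => W n + ε * x n) ∈ B} =
      S.restrict ⁻¹' (ext ⁻¹' B) := by
    ext1 x
    show ((fun n => W n + ε * x n) ∈ B) ↔ ext (S.restrict x) ∈ B
    apply hloc
    intro n hn1 hn2
    have hn : n ∈ S := Finset.mem_Icc.2 ⟨hn1, hn2⟩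
    simp only [ext, hn, dif_pos]
    rfl
  rw [e1, e2, ← Measure.map_apply (measurable_pi_iff.2 fun a => measurable_pi_apply _) hB', h1,
    PZ, ← Measure.map_apply (Finset.measurable_restrict S) hB', h2]

end Pool.Agent.H980R3.PP
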